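import Pool.Agent.TH814.GN.Gam

/-!
# Rational values among the numbers `Γ(1 / n) ^ m`

Let `m ≥ 1`. The integers `n` for which `Γ(1 / n) ^ m` is a rational number with a denominator of at most `n ^ A` are
extremely rare: each interval `[N, N ^ κ]` contains at most `Z = Z(m, A, κ)` of them, so that there are `O(log log X)` of
them up to `X`.

Proof. The points `1 / n` converge to the point `0`, at which `f(t) = Γ(1 + t) ^ m` is analytic. For `n ≥ N` the determinants
of the numbers `n_x^(-i) f(1 / n_x)^l`, `0 ≤ i, l ≤ D`, are as small as `N ^ (- M (M - 1) / 2)`, `M = (D + 1)^2`; this is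
smaller than the inverse of their common denominator if `D` is large, so they vanish and all the points lie on a curve of
degree `D` in each variable. The number of its intersections with the graph of `f` over `[0, 1]` is bounded, because `f` is
transcendental.
-/

set_option autoImplicit false

namespace Pool.Agent.Results.MP_84d916_nt.RationalValues

/-- The positive integers `n` such that `Γ(1 / n) ^ m` is a rational number `u / v` with `1 ≤ v ≤ n ^ A`. -/
def Bad (m : ℕ) (A : ℝ) : Set ℕ :=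
  {n | 1 ≤ n ∧ ∃ (u : ℤ) (v : ℕ), 1 ≤ v ∧ (v : ℝ) ≤ (n : ℝ) ^ A ∧ Real.Gamma (1 / n) ^ m = u / v}

/-- Let `m ≥ 1` be an integer. For all `A ≥ 0` and `κ ≥ 1` there is `Z` such that for every `N ≥ 1` at most `Z` integers `n` with
`N ≤ n ≤ N ^ κ` are in `Bad m A`. In particular there is `Z` such that for every `J` at most `2 + Z J` integers
`n ≤ 2 ^ (2 ^ J)` are in `Bad m A`. -/
theorem result (m : ℕ) (hm : 1 ≤ m) (A : ℝ) (hA : 0 ≤ A) :
    (∀ κ : ℝ, 1 ≤ κ → ∃ Z : ℕ, ∀ N : ℕ, 1 ≤ N →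
      {n : ℕ | n ∈ Bad m A ∧ N ≤ n ∧ (n : ℝ) ≤ (N : ℝ) ^ κ}.encard ≤ Z) ∧
    ∃ Z : ℕ, ∀ J : ℕ, {n : ℕ | n ∈ Bad m A ∧ n ≤ 2 ^ (2 ^ J)}.encard ≤ 2 + Z * J := by
  have h1 : ∀ κ : ℝ, 1 ≤ κ → ∃ Z : ℕ, ∀ N : ℕ, 1 ≤ N →
      {n : ℕ | n ∈ Bad m A ∧ N ≤ n ∧ (n : ℝ) ≤ (N : ℝ) ^ κ}.encard ≤ Z := by
    intro κ hκ
    obtain ⟨Z, hZ⟩ := Pool.Agent.TH814.GN.gap (fun t => Pool.Agent.TH814.GN.G1 t ^ m)
      (fun t ht => (Pool.Agent.TH814.GN.G1_an (lt_of_lt_of_le (by norm_num) ht.1)).pow m)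
      (Pool.Agent.TH814.GN.G1_pow_ind m hm) (A + m) κ (by positivity) hκ
    refine ⟨Z, fun N hN => ?_⟩
    by_contra hcon
    push Not at hcon
    obtain ⟨F, hF, hFc⟩ := Set.exists_subset_encard_eq (Order.add_one_le_of_lt hcon)
    have hFfin : F.Finite := by
      rw [← Set.encard_lt_top_iff, hFc]
      exact_mod_cast ENat.natCast_lt_top (Z + 1)
    have h2 := hZ N hN hFfin.toFinset (by
      intro n hn
      rw [Set.Finite.mem_toFinset] at hn
      obtain ⟨⟨hn1, u, v, hv1, hv2, huv⟩, hN1, hN2⟩ := hF hn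
      have hn0 : (0 : ℝ) < (n : ℝ) := by exact_mod_cast hn1
      refine ⟨hN1, hN2, u, n ^ m * v, Nat.mul_pos (pow_pos hn1 m) hv1, ?_, ?_⟩
      · push_cast
        rw [Real.rpow_add hn0, Real.rpow_natCast, mul_comm]
        exact mul_le_mul_of_nonneg_right hv2 (by positivity)
      · have hv0 : (v : ℝ) ≠ 0 := by
          have : (1 : ℝ) ≤ (v : ℝ) := by exact_mod_cast hv1
          linarith
        show Pool.Agent.TH814.GN.G1 (1 / n) ^ m = _
        unfold Pool.Agent.TH814.GN.G1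
        rw [add_comm, Real.Gamma_add_one (by positivity), mul_pow, huv, div_pow, one_pow]
        push_cast
        field_simp)
    have h3 : F.encard = hFfin.toFinset.card := by
      rw [hFfin.encard_eq_coe_toFinset_card]
    rw [h3] at hFc
    have h4 : hFfin.toFinset.card = Z + 1 := by exact_mod_cast hFc
    omega
  refine ⟨h1, ?_⟩
  obtain ⟨Z, hZ⟩ := h1 2 (by norm_num)
  refine ⟨Z, fun J => ?_⟩
  induction J with
  | zero =>
    have hsub : {n : ℕ | n ∈ Bad m A ∧ n ≤ 2 ^ (2 ^ 0)} ⊆ ({1, 2} : Set ℕ) := by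
      rintro n ⟨⟨hn1, -⟩, hn2⟩
      simp only [pow_zero, pow_one] at hn2
      simp only [Set.mem_insert_iff, Set.mem_singleton_iff]
      omega
    refine (Set.encard_le_encard hsub).trans ?_
    refine (Set.encard_insert_le _ _).trans ?_
    rw [Set.encard_singleton]
    norm_num
  | succ J ih =>
    have hsub : {n : ℕ | n ∈ Bad m A ∧ n ≤ 2 ^ (2 ^ (J + 1))} ⊆
        {n : ℕ | n ∈ Bad m A ∧ n ≤ 2 ^ (2 ^ J)} ∪
          {n : ℕ | n ∈ Bad m A ∧ 2 ^ (2 ^ J) ≤ n ∧ (n : ℝ) ≤ ((2 ^ (2 ^ J) : ℕ) : ℝ) ^ (2 : ℝ)} := by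
      rintro n ⟨hb, hn⟩
      rcases le_total n (2 ^ (2 ^ J)) with h | h
      · exact Or.inl ⟨hb, h⟩
      · refine Or.inr ⟨hb, h, ?_⟩
        rw [Real.rpow_two]
        have e : 2 ^ (2 ^ (J + 1)) = (2 ^ (2 ^ J)) ^ 2 := by
          rw [← pow_mul, ← pow_succ]
        rw [e] at hn
        exact_mod_cast hn
    refine (Set.encard_le_encard hsub).trans ((Set.encard_union_le _ _).trans ?_)
    refine (add_le_add ih (hZ _ Nat.one_le_two_pow)).trans ?_
    apply le_of_eq
    push_cast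
    ring

end Pool.Agent.Results.MP_84d916_nt.RationalValues
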